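import Pool.Agent.Y160.FT2.Stmts

/-!
# Job FT2-ExF of project FT2: existence over finite fields of every characteristic

We prove `Pool.Agent.Y160.FT.StExF` from `Pool.Agent.Y160.FT.StCnt`.
-/

set_option autoImplicit false
set_option linter.all false

open Polynomial

namespace Pool.Agent.Y232.FT2

open Pool.Agent.Y160.FT

/-- Equality modulo nonzero `ℓ`-th powers. -/
def R {k : Type} [Field k] (ℓ : ℕ) (a b : k) : Prop := ∃ y : k, y ≠ 0 ∧ a = b * y ^ ℓ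

section rel

variable {k : Type} [Field k] {ℓ : ℕ}

theorem R_refl (a : k) : R ℓ a a := ⟨1, one_ne_zero, by simp⟩

theorem R_symm {a b : k} (h : R ℓ a b) : R ℓ b a := by
  obtain ⟨y, hy, h⟩ := h
  refine ⟨y⁻¹, inv_ne_zero hy, ?_⟩
  rw [h, mul_assoc, ← mul_pow, mul_inv_cancel₀ hy, one_pow, mul_one]

theorem R_trans {a b c : k} (h : R ℓ a b) (h' : R ℓ b c) : R ℓ a c := by
  obtain ⟨y, hy, h⟩ := h
  obtain ⟨z, hz, h'⟩ := h'
  refine ⟨z * y, mul_ne_zero hz hy, ?_⟩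
  rw [h, h', mul_pow]; ring

theorem R_mul {a b c d : k} (h : R ℓ a b) (h' : R ℓ c d) : R ℓ (a * c) (b * d) := by
  obtain ⟨y, hy, h⟩ := h
  obtain ⟨z, hz, h'⟩ := h'
  refine ⟨y * z, mul_ne_zero hy hz, ?_⟩
  rw [h, h', mul_pow]; ring

theorem R_pow {a b : k} (h : R ℓ a b) (n : ℕ) : R ℓ (a ^ n) (b ^ n) := by
  obtain ⟨y, hy, h⟩ := h
  refine ⟨y ^ n, pow_ne_zero _ hy, ?_⟩
  rw [h, mul_pow, ← pow_mul, ← pow_mul, mul_comm ℓ n]

theorem R_prod {ι : Type} (s : Finset ι) (f g : ι → k) (h : ∀ i ∈ s, R ℓ (f i) (g i)) :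
    R ℓ (∏ i ∈ s, f i) (∏ i ∈ s, g i) := by
  classical
  induction s using Finset.induction_on with
  | empty => simpa using R_refl (1 : k)
  | insert a s ha ih =>
    rw [Finset.prod_insert ha, Finset.prod_insert ha]
    exact R_mul (h a (Finset.mem_insert_self _ _))
      (ih fun i hi => h i (Finset.mem_insert_of_mem hi))

theorem R_cancel {a b c : k} (ha : a ≠ 0) (h : R ℓ (a * b) (a * c)) : R ℓ b c := by
  obtain ⟨y, hy, h⟩ := h
  refine ⟨y, hy, mul_left_cancel₀ ha ?_⟩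
  rw [h]; ring

/-- Powers of an element which is not an `ℓ`-th power. -/
theorem R_pow_one (hℓ : ℓ.Prime) {a : k} (ha : a ≠ 0) (h1 : ¬ R ℓ a 1) {n : ℕ}
    (h : R ℓ (a ^ n) 1) : ℓ ∣ n := by
  by_contra hn
  have hc : n.Coprime ℓ := (Nat.Coprime.symm ((Nat.Prime.coprime_iff_not_dvd hℓ).2 hn))
  obtain ⟨y, hy, hy'⟩ := h
  rw [one_mul] at hy'
  apply h1
  have hb : (1 : ℤ) = n * n.gcdA ℓ + ℓ * n.gcdB ℓ := by
    have := Nat.gcd_eq_gcd_ab n ℓ
    rw [hc] at this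
    exact_mod_cast this
  refine ⟨y ^ (n.gcdA ℓ) * a ^ (n.gcdB ℓ), mul_ne_zero (zpow_ne_zero _ hy) (zpow_ne_zero _ ha), ?_⟩
  rw [one_mul, mul_pow]
  have e1 : (y ^ (n.gcdA ℓ)) ^ ℓ = a ^ ((n : ℤ) * n.gcdA ℓ) := by
    rw [← zpow_natCast (y ^ (n.gcdA ℓ)) ℓ, ← zpow_mul, mul_comm, zpow_mul, zpow_natCast, ← hy',
      ← zpow_natCast a n, ← zpow_mul]
  have e2 : (a ^ (n.gcdB ℓ)) ^ ℓ = a ^ ((ℓ : ℤ) * n.gcdB ℓ) := by
    rw [← zpow_natCast (a ^ (n.gcdB ℓ)) ℓ, ← zpow_mul, mul_comm]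
  rw [e1, e2, ← zpow_add₀ ha, ← hb, zpow_one]

theorem R_pow_pow (hℓ : ℓ.Prime) {a : k} (ha : a ≠ 0) (h1 : ¬ R ℓ a 1) {n m : ℕ}
    (h : R ℓ (a ^ n) (a ^ m)) : n ≡ m [MOD ℓ] := by
  rcases le_total m n with hnm | hnm
  · have e : a ^ n = a ^ m * a ^ (n - m) := by rw [← pow_add]; congr 1; omega
    have h2 : R ℓ (a ^ (n - m)) 1 := by
      refine R_cancel (pow_ne_zero m ha) ?_
      rwa [← e, mul_one]
    exact ((Nat.modEq_iff_dvd' hnm).2 (R_pow_one hℓ ha h1 h2)).symm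
  · have e : a ^ m = a ^ n * a ^ (m - n) := by rw [← pow_add]; congr 1; omega
    have h2 : R ℓ (a ^ (m - n)) 1 := by
      refine R_cancel (pow_ne_zero n ha) ?_
      rw [← e, mul_one]
      exact R_symm h
    exact (Nat.modEq_iff_dvd' hnm).2 (R_pow_one hℓ ha h1 h2)

end rel

/-- The criterion for `ℓ`-th powers in a finite field. -/
theorem R_one_of_pow {k : Type} [Field k] [Finite k] {ℓ : ℕ} (hℓ : 0 < ℓ) {Q D : ℕ}
    (hc : Nat.card k - 1 = (Q - 1) * (ℓ * D)) {x : k} (hx : x ≠ 0) (h : x ^ (Q - 1) = 1) :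
    R ℓ x 1 := by
  classical
  haveI := Fintype.ofFinite k
  obtain ⟨g, hg⟩ := IsCyclic.exists_generator (α := kˣ)
  have hcu : Nat.card kˣ = Nat.card k - 1 := Nat.card_units k
  have hog : orderOf g = Nat.card k - 1 := by
    rw [orderOf_eq_card_of_forall_mem_zpowers hg, hcu]
  have hpos : 0 < Nat.card k - 1 := by
    rw [← hcu]; exact Nat.card_pos
  obtain ⟨n, hn⟩ := (mem_powers_iff_mem_zpowers.2 (hg (Units.mk0 x hx)) : _ ∈ Submonoid.powers g)
  have hn' : g ^ n = Units.mk0 x hx := hn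
  have h2 : g ^ (n * (Q - 1)) = 1 := by
    rw [pow_mul, hn']
    ext
    rw [Units.val_pow_eq_pow_val, Units.val_mk0, h, Units.val_one]
  have h3 : (Q - 1) * (ℓ * D) ∣ n * (Q - 1) := by
    rw [← hc, ← hog]; exact orderOf_dvd_of_pow_eq_one h2
  have hQ : 0 < Q - 1 := by
    rcases Nat.eq_zero_or_pos (Q - 1) with h0 | h0
    · rw [h0, zero_mul] at hc; omega
    · exact h0
  rw [mul_comm n] at h3
  have h4 : ℓ * D ∣ n := Nat.dvd_of_mul_dvd_mul_left hQ h3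
  obtain ⟨n', rfl⟩ := (Dvd.intro _ rfl : ℓ ∣ ℓ * D).trans h4
  refine ⟨((g ^ n' : kˣ) : k), Units.ne_zero _, ?_⟩
  rw [one_mul, ← Units.val_pow_eq_pow_val, ← pow_mul, mul_comm n', hn', Units.val_mk0]

/-- The finite field. -/
theorem field_ex (ℓ p₀ T B : ℕ) (hℓ : ℓ.Prime) (hp : p₀.Prime) (hT : p₀.Coprime T) (hT0 : 0 < T)
    (hℓT : ℓ ∣ T) :
    ∃ (k : Type) (_ : Field k) (t D : ℕ), Finite k ∧ CharP k p₀ ∧ 0 < t ∧ T ∣ p₀ ^ t - 1 ∧
      Nat.card k - 1 = (p₀ ^ t - 1) * (ℓ * D) ∧ B ≤ Nat.card k := by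
  haveI : Fact p₀.Prime := ⟨hp⟩
  have ht : 0 < T.totient := Nat.totient_pos.2 hT0
  have hM : 0 < ℓ * (B + 1) := Nat.mul_pos hℓ.pos (Nat.succ_pos _)
  have htM : T.totient * (ℓ * (B + 1)) ≠ 0 := (Nat.mul_pos ht hM).ne'
  have h1 : 1 ≤ p₀ ^ T.totient := Nat.one_le_pow _ _ hp.pos
  have hd : T ∣ p₀ ^ T.totient - 1 :=
    (Nat.modEq_iff_dvd' h1).1 (Nat.ModEq.pow_totient hT).symm
  have hcard : Nat.card (GaloisField p₀ (T.totient * (ℓ * (B + 1)))) =
      p₀ ^ (T.totient * (ℓ * (B + 1))) := GaloisField.card p₀ _ htM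
  have hfin : Finite (GaloisField p₀ (T.totient * (ℓ * (B + 1)))) := inferInstance
  have hmod : p₀ ^ T.totient ≡ 1 [MOD ℓ] :=
    ((Nat.modEq_iff_dvd' h1).2 (hℓT.trans hd)).symm
  have hsum : ℓ ∣ ∑ i ∈ Finset.range (ℓ * (B + 1)), (p₀ ^ T.totient) ^ i := by
    rw [← ZMod.natCast_eq_zero_iff]
    have e : ((p₀ ^ T.totient : ℕ) : ZMod ℓ) = ((1 : ℕ) : ZMod ℓ) :=
      (ZMod.natCast_eq_natCast_iff _ _ _).2 hmod
    have e2 : ∀ i ∈ Finset.range (ℓ * (B + 1)),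
        (((p₀ ^ T.totient) ^ i : ℕ) : ZMod ℓ) = 1 := by
      intro i _
      rw [Nat.cast_pow, e, Nat.cast_one, one_pow]
    rw [Nat.cast_sum, Finset.sum_congr rfl e2]
    simp
  obtain ⟨D, hD⟩ := hsum
  refine ⟨GaloisField p₀ (T.totient * (ℓ * (B + 1))), inferInstance, T.totient, D, hfin,
    inferInstance, ht, hd, ?_, ?_⟩
  · rw [hcard, pow_mul, ← hD]
    obtain ⟨x, hx⟩ : ∃ x, p₀ ^ T.totient = x + 1 := ⟨p₀ ^ T.totient - 1, by omega⟩
    rw [hx, ← geom_sum_mul_add x (ℓ * (B + 1)), Nat.add_sub_cancel, Nat.add_sub_cancel, mul_comm]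
  · rw [hcard]
    have h2 : B < 2 ^ B := Nat.lt_two_pow_self
    have h3 : 2 ^ B ≤ p₀ ^ B := Nat.pow_le_pow_left hp.two_le B
    have h4 : p₀ ^ B ≤ p₀ ^ (T.totient * (ℓ * (B + 1))) := by
      apply Nat.pow_le_pow_right hp.pos
      have : 1 * (1 * (B + 1)) ≤ T.totient * (ℓ * (B + 1)) :=
        Nat.mul_le_mul ht (Nat.mul_le_mul hℓ.pos le_rfl)
      omega
    omega

/-- The number of `N`-th powers in a finite field. -/
theorem card_pow {k : Type} [Field k] [Fintype k] [DecidableEq k] {N : ℕ}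
    (hN : N ∣ Nat.card k - 1) :
    ((Finset.univ : Finset k).image fun b => b ^ N).card ≤ (Nat.card k - 1) / N + 1 := by
  classical
  have hc : Nat.card kˣ = Nat.card k - 1 := Nat.card_units k
  have h1 := IsCyclic.card_powMonoidHom_range kˣ N
  rw [hc, Nat.gcd_eq_right hN] at h1
  have h2 : ((Finset.univ : Finset k).image fun b => b ^ N) ⊆
      insert 0 (((Finset.univ : Finset kˣ).image (fun u : kˣ => (u ^ N : kˣ))).image
        (fun u : kˣ => (u : k))) := by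
    intro x hx
    obtain ⟨b, -, rfl⟩ := Finset.mem_image.1 hx
    rcases eq_or_ne b 0 with rfl | hb
    · rcases Nat.eq_zero_or_pos N with h0 | h0
      · subst h0
        refine Finset.mem_insert_of_mem (Finset.mem_image.2 ⟨1, Finset.mem_image.2
          ⟨1, Finset.mem_univ _, by simp⟩, by simp⟩)
      · refine Finset.mem_insert.2 (Or.inl ?_)
        exact zero_pow h0.ne'
    · refine Finset.mem_insert_of_mem (Finset.mem_image.2 ⟨Units.mk0 b hb ^ N, Finset.mem_image.2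
          ⟨Units.mk0 b hb, Finset.mem_univ _, rfl⟩, by simp⟩)
  refine (Finset.card_le_card h2).trans ((Finset.card_insert_le _ _).trans ?_)
  refine Nat.succ_le_succ (Finset.card_image_le.trans ?_)
  rw [← h1]
  have h3 : Nat.card (powMonoidHom N : kˣ →* kˣ).range =
      Nat.card (Set.range fun u : kˣ => u ^ N) := rfl
  rw [h3, Nat.card_eq_fintype_card, ← Set.toFinset_card]
  apply Finset.card_le_card
  intro x hx
  obtain ⟨b, -, rfl⟩ := Finset.mem_image.1 hx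
  rw [Set.mem_toFinset]
  exact ⟨b, rfl⟩

/-- Translating away from the `N`-th powers. -/
theorem tau_ex {k : Type} [Field k] [Finite k] {N m : ℕ} (hN : N ∣ Nat.card k - 1)
    (h : 2 * m * ((Nat.card k - 1) / N + 1) < Nat.card k) (ρ γ : Fin m → k) :
    ∃ τ : k, (∀ i b, b ^ N ≠ ρ i - τ) ∧ (∀ i b, b ^ N ≠ γ i - τ) := by
  classical
  haveI := Fintype.ofFinite k
  set S : Finset k := (Finset.univ : Finset k).image fun b => b ^ N with hS
  have hSc := card_pow hN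
  rw [← hS] at hSc
  set n := (Nat.card k - 1) / N + 1 with hn
  have key : ∀ δ : Fin m → k,
      ((Finset.univ : Finset (Fin m)).biUnion fun i => S.image fun s => δ i - s).card ≤ m * n := by
    intro δ
    refine (Finset.card_biUnion_le_card_mul _ _ n ?_).trans ?_
    · intro i _
      exact Finset.card_image_le.trans hSc
    · rw [Finset.card_univ, Fintype.card_fin]
  have hu : (((Finset.univ : Finset (Fin m)).biUnion fun i => S.image fun s => ρ i - s) ∪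
      ((Finset.univ : Finset (Fin m)).biUnion fun i => S.image fun s => γ i - s)).card <
      Fintype.card k := by
    refine (Finset.card_union_le _ _).trans_lt ?_
    rw [← Nat.card_eq_fintype_card]
    have h1 := key ρ
    have h2 := key γ
    have h3 : m * n + m * n = 2 * m * n := by ring
    omega
  obtain ⟨τ, hτ⟩ : ∃ τ : k, τ ∉ (((Finset.univ : Finset (Fin m)).biUnion
      fun i => S.image fun s => ρ i - s) ∪
      ((Finset.univ : Finset (Fin m)).biUnion fun i => S.image fun s => γ i - s)) := by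
    by_contra hcon
    have hcon := fun x => not_not.1 (not_exists.1 hcon x)
    have : (Finset.univ : Finset k) ⊆ (((Finset.univ : Finset (Fin m)).biUnion
      fun i => S.image fun s => ρ i - s) ∪
      ((Finset.univ : Finset (Fin m)).biUnion fun i => S.image fun s => γ i - s)) :=
      fun x _ => hcon x
    have := Finset.card_le_card this
    rw [Finset.card_univ] at this
    omega
  rw [Finset.mem_union, not_or] at hτ
  refine ⟨τ, fun i b hb => hτ.1 ?_, fun i b hb => hτ.2 ?_⟩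
  · refine Finset.mem_biUnion.2 ⟨i, Finset.mem_univ _, Finset.mem_image.2 ⟨b ^ N,
      Finset.mem_image.2 ⟨b, Finset.mem_univ _, rfl⟩, ?_⟩⟩
    rw [hb]; ring
  · refine Finset.mem_biUnion.2 ⟨i, Finset.mem_univ _, Finset.mem_image.2 ⟨b ^ N,
      Finset.mem_image.2 ⟨b, Finset.mem_univ _, rfl⟩, ?_⟩⟩
    rw [hb]; ring

theorem prim_ex {k : Type} [Field k] [Finite k] {d : ℕ} (hd : d ∣ Nat.card k - 1) :
    ∃ z : k, IsPrimitiveRoot z d := by
  classical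
  haveI := Fintype.ofFinite k
  obtain ⟨g, hg⟩ := IsCyclic.exists_generator (α := kˣ)
  have hcu : Nat.card kˣ = Nat.card k - 1 := Nat.card_units k
  have hog : orderOf g = Nat.card k - 1 := by
    rw [orderOf_eq_card_of_forall_mem_zpowers hg, hcu]
  have hpos : 0 < Nat.card k - 1 := by
    rw [← hcu]; exact Nat.card_pos
  obtain ⟨n, hn⟩ := hd
  have h1 : IsPrimitiveRoot g (Nat.card k - 1) := by
    rw [← hog]; exact IsPrimitiveRoot.orderOf g
  have h2 : IsPrimitiveRoot (g ^ n) d := h1.pow hpos (by rw [hn, mul_comm])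
  exact ⟨((g ^ n : kˣ) : k), IsPrimitiveRoot.coe_units_iff.2 h2⟩

theorem nonpow_ex {k : Type} [Field k] [Finite k] {ℓ : ℕ} (hℓ : ℓ.Prime)
    (hd : ℓ ∣ Nat.card k - 1) : ∃ g : k, g ≠ 0 ∧ ¬ R ℓ g 1 := by
  classical
  haveI := Fintype.ofFinite k
  obtain ⟨g, hg⟩ := IsCyclic.exists_generator (α := kˣ)
  have hcu : Nat.card kˣ = Nat.card k - 1 := Nat.card_units k
  have hog : orderOf g = Nat.card k - 1 := by
    rw [orderOf_eq_card_of_forall_mem_zpowers hg, hcu]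
  have hpos : 0 < Nat.card k - 1 := by
    rw [← hcu]; exact Nat.card_pos
  obtain ⟨n, hn⟩ := hd
  refine ⟨(g : k), g.ne_zero, ?_⟩
  rintro ⟨y, hy, h⟩
  rw [one_mul] at h
  have h1 : g = Units.mk0 y hy ^ ℓ := by
    ext; rw [Units.val_pow_eq_pow_val, Units.val_mk0, h]
  have h2 : g ^ n = 1 := by
    rw [h1, ← pow_mul, ← hn, ← hcu]
    exact pow_card_eq_one'
  have h3 : orderOf g ∣ n := orderOf_dvd_of_pow_eq_one h2
  rw [hog, hn] at h3
  have hn0 : 0 < n := by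
    rcases Nat.eq_zero_or_pos n with h0 | h0
    · rw [h0, mul_zero] at hn; omega
    · exact h0
  have h4 := Nat.le_of_dvd hn0 h3
  have h5 : 2 * n ≤ ℓ * n := Nat.mul_le_mul hℓ.two_le le_rfl
  omega

theorem cond_redei {k : Type} [Field k] {ℓ m : ℕ} (hℓ : ℓ.Prime) (hm : ℓ.Coprime m) {ρ0 : k}
    (hρ0 : ρ0 ≠ 0) (h1 : ¬ R ℓ ρ0 1) (ρ : Fin m → k)
    (hρ : ∀ i j, i ≠ j → R ℓ (ρ i - ρ j) ρ0) (c : k) (e : Fin m → ℕ)
    (H : ∀ i, ∃ y : k, y ≠ 0 ∧ c * ∏ j ∈ Finset.univ.erase i, (ρ i - ρ j) ^ e j =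
      (∏ j ∈ Finset.univ.erase i, (ρ i - ρ j)) ^ e i * y ^ ℓ) (i j : Fin m) :
    e i ≡ e j [MOD ℓ] := by
  classical
  have key : ∀ i : Fin m, R ℓ (c * ρ0 ^ (∑ j, e j)) (ρ0 ^ (m * e i)) := by
    intro i
    have a1 : R ℓ (∏ j ∈ Finset.univ.erase i, (ρ i - ρ j) ^ e j)
        (∏ j ∈ Finset.univ.erase i, ρ0 ^ e j) :=
      R_prod _ _ _ fun j hj => R_pow (hρ i j (Finset.ne_of_mem_erase hj).symm) _
    have a2 : R ℓ (∏ j ∈ Finset.univ.erase i, (ρ i - ρ j))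
        (∏ j ∈ Finset.univ.erase i, ρ0) :=
      R_prod _ _ _ fun j hj => hρ i j (Finset.ne_of_mem_erase hj).symm
    have a3 : R ℓ (c * ∏ j ∈ Finset.univ.erase i, (ρ i - ρ j) ^ e j)
      ((∏ j ∈ Finset.univ.erase i, (ρ i - ρ j)) ^ e i) := H i
    have a4 := R_trans (R_symm (R_mul (R_refl c) a1)) (R_trans a3 (R_pow a2 (e i)))
    have a5 := R_mul (R_refl (ρ0 ^ e i)) a4
    have b1 : ρ0 ^ e i * (c * ∏ j ∈ Finset.univ.erase i, ρ0 ^ e j) = c * ρ0 ^ (∑ j, e j) := by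
      rw [← Finset.prod_pow_eq_pow_sum, ← Finset.mul_prod_erase Finset.univ _ (Finset.mem_univ i)]
      ring
    have b2 : ρ0 ^ e i * (∏ j ∈ Finset.univ.erase i, ρ0) ^ e i = ρ0 ^ (m * e i) := by
      rw [← mul_pow, Finset.mul_prod_erase Finset.univ (fun _ => ρ0) (Finset.mem_univ i),
        Finset.prod_const, Finset.card_univ, Fintype.card_fin, ← pow_mul]
    rwa [b1, b2] at a5
  have := R_pow_pow hℓ hρ0 h1 (R_trans (R_symm (key i)) (key j))
  exact Nat.ModEq.cancel_left_of_coprime hm this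

theorem cond_mat {k : Type} [Field k] {ℓ m : ℕ} (hℓ : ℓ.Prime) {ρ0 κ1 : k}
    (hρ0 : ρ0 ≠ 0) (hκ1 : κ1 ≠ 0) (h1 : ¬ R ℓ κ1 1) (M : Fin m → Fin m → k)
    (hM : ∀ j i, R ℓ (M j i) (ρ0 * if i = j then κ1 else 1)) (c : k) (hc : c ≠ 0) (e : Fin m → ℕ)
    (H : ∀ j, ∃ y : k, c * ∏ i, (M j i) ^ e i = y ^ ℓ) (i j : Fin m) :
    e i ≡ e j [MOD ℓ] := by
  classical
  have key : ∀ j : Fin m, R ℓ (c * ρ0 ^ (∑ i, e i) * κ1 ^ e j) 1 := by
    intro j
    have a1 : R ℓ (∏ i, (M j i) ^ e i) (∏ i, (ρ0 * if i = j then κ1 else 1) ^ e i) :=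
      R_prod _ _ _ fun i _ => R_pow (hM j i) _
    have b1 : (∏ i, (ρ0 * if i = j then κ1 else 1) ^ e i) = ρ0 ^ (∑ i, e i) * κ1 ^ e j := by
      have : ∀ i, (ρ0 * if i = j then κ1 else 1) ^ e i =
          ρ0 ^ e i * (if i = j then κ1 ^ e i else 1) := by
        intro i
        rw [mul_pow]
        split_ifs with h
        · rfl
        · rw [one_pow]
      rw [Finset.prod_congr rfl fun i _ => this i, Finset.prod_mul_distrib,
        Finset.prod_pow_eq_pow_sum, Finset.prod_ite_eq' Finset.univ j, if_pos (Finset.mem_univ j)]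
    rw [b1] at a1
    obtain ⟨y, hy⟩ := H j
    have a2 := R_symm (R_mul (R_refl c) a1)
    rw [hy] at a2
    have hy0 : y ≠ 0 := by
      rintro rfl
      obtain ⟨z, hz, hz'⟩ := a2
      rw [zero_pow hℓ.ne_zero, zero_mul] at hz'
      exact mul_ne_zero hc (mul_ne_zero (pow_ne_zero _ hρ0) (pow_ne_zero _ hκ1)) hz'
    have a3 : R ℓ (y ^ ℓ) 1 := ⟨y, hy0, by rw [one_mul]⟩
    rw [mul_assoc]
    exact R_trans a2 a3
  have a4 := R_trans (key i) (R_symm (key j))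
  exact R_pow_pow hℓ hκ1 h1 (R_cancel (mul_ne_zero hc (pow_ne_zero _ hρ0)) a4)

theorem mat_rel {k : Type} [Field k] {ℓ m : ℕ} {z κ : k} (ρ0 : k) (hz : z ^ m = 1)
    (hzR : ∀ n : ℕ, R ℓ (z ^ n) 1) (hk : ∀ i : ℕ, i < m → i ≠ 0 → R ℓ (κ - z ^ i) 1)
    (i j : Fin m) :
    R ℓ (κ * ρ0 * z ^ (j : ℕ) - ρ0 * z ^ (i : ℕ)) (ρ0 * if i = j then κ - 1 else 1) := by
  have hm : 0 < m := lt_of_le_of_lt (Nat.zero_le _) i.2
  split_ifs with hij
  · subst hij
    have : κ * ρ0 * z ^ (i : ℕ) - ρ0 * z ^ (i : ℕ) = ρ0 * (κ - 1) * z ^ (i : ℕ) := by ring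
    rw [this]
    have h := R_mul (R_refl (ℓ := ℓ) (ρ0 * (κ - 1))) (hzR i)
    rwa [mul_one] at h
  · set n := (i + (m - j) : ℕ) % m with hn
    have hi := i.2
    have hj := j.2
    have hne : (i : ℕ) ≠ j := fun h => hij (Fin.ext h)
    have hn0 : n ≠ 0 := by
      intro h0
      rw [hn] at h0
      obtain ⟨d, hd⟩ := Nat.dvd_of_mod_eq_zero h0
      have : d = 1 := by
        rcases Nat.lt_or_ge d 1 with h | h
        · have : d = 0 := by omega
          subst this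
          rw [mul_zero] at hd; omega
        · rcases Nat.lt_or_ge 1 d with h' | h'
          · have : m * 2 ≤ m * d := Nat.mul_le_mul le_rfl h'
            omega
          · omega
      subst this
      omega
    have hzn : z ^ n * z ^ (j : ℕ) = z ^ (i : ℕ) := by
      have h1 : z ^ (i + (m - j) : ℕ) = z ^ n := by
        conv_lhs => rw [← Nat.mod_add_div (i + (m - j) : ℕ) m]
        rw [pow_add, pow_mul, hz, one_pow, mul_one]
      rw [← h1, ← pow_add]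
      have h2 : (i : ℕ) + (m - j) + j = i + m := by omega
      rw [h2, pow_add, hz, mul_one]
    have : κ * ρ0 * z ^ (j : ℕ) - ρ0 * z ^ (i : ℕ) = ρ0 * (z ^ (j : ℕ) * (κ - z ^ n)) := by
      rw [← hzn]; ring
    rw [this]
    have h := R_mul (hzR j) (hk n (Nat.mod_lt _ hm) hn0)
    rw [one_mul] at h
    exact R_mul (R_refl ρ0) h

theorem stExF (h : StCnt) : StExF := by
  intro ℓ q s m p₀ hℓ hq hp hpℓ hℓm hpm hm
  classical
  obtain ⟨M, hM⟩ := h ℓ m hℓ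
  obtain ⟨N, hN1, hN⟩ := Nat.exists_infinite_primes (ℓ + p₀ + 4 * m + 3)
  have hq0 : 0 < q := by rw [hq]; exact Nat.pow_pos hℓ.pos
  have hℓq : ℓ ∣ q := by rw [hq]; exact dvd_pow_self _ (Nat.succ_ne_zero _)
  have hpq : p₀.Coprime q := by
    rw [hq]; exact Nat.Coprime.pow_right _ ((Nat.coprime_primes hp hℓ).2 hpℓ)
  have hpN : p₀.Coprime N := (Nat.coprime_primes hp hN).2 (by omega)
  have hℓN : ℓ.Coprime N := (Nat.coprime_primes hℓ hN).2 (by omega)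
  obtain ⟨k, hk, t, D, hfin, hchar, ht, hTd, hcard, hB⟩ := field_ex ℓ p₀ (q * m * N)
    (M + 4 * m + 1) hℓ hp (Nat.Coprime.mul_right (Nat.Coprime.mul_right hpq hpm) hpN)
    (Nat.mul_pos (Nat.mul_pos hq0 hm) hN.pos) ((hℓq.mul_right m).mul_right N)
  have hdk : p₀ ^ t - 1 ∣ Nat.card k - 1 := by rw [hcard]; exact Dvd.intro _ rfl
  have hTk := hTd.trans hdk
  have hqk : q ∣ Nat.card k - 1 := (Dvd.intro _ rfl : q ∣ q * (m * N)).trans (by
    rw [← mul_assoc]; exact hTk)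
  have hmk : m ∣ Nat.card k - 1 := (Dvd.intro_left (q * N) (by ring) : m ∣ q * m * N).trans hTk
  have hmQ : m ∣ p₀ ^ t - 1 := (Dvd.intro_left (q * N) (by ring) : m ∣ q * m * N).trans hTd
  have hNk : N ∣ Nat.card k - 1 := (Dvd.intro_left (q * m) rfl : N ∣ q * m * N).trans hTk
  obtain ⟨ζ, hζ⟩ := prim_ex (k := k) hqk
  obtain ⟨z, hz⟩ := prim_ex (k := k) hmk
  obtain ⟨g, hg0, hg⟩ := nonpow_ex (k := k) hℓ (hℓq.trans hqk)
  haveI : Fact p₀.Prime := ⟨hp⟩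
  haveI := hchar
  have hQpos : 0 < p₀ ^ t := Nat.pow_pos hp.pos
  -- elements of the small field
  have P1 : ∀ x : k, x ≠ 0 → x ^ (p₀ ^ t) = x → R ℓ x 1 := by
    intro x hx hx'
    refine R_one_of_pow hℓ.pos hcard hx ?_
    apply mul_left_cancel₀ hx
    rw [mul_one, ← pow_succ', Nat.sub_add_cancel hQpos, hx']
  have frob : ∀ x y : k, (x - y) ^ (p₀ ^ t) = x ^ (p₀ ^ t) - y ^ (p₀ ^ t) :=
    fun x y => sub_pow_char_pow x y t
  have hz1 : z ^ m = 1 := hz.pow_eq_one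
  have hz0 : z ≠ 0 := hz.ne_zero hm.ne'
  have hzf : z ^ (p₀ ^ t) = z := by
    obtain ⟨d, hd⟩ := hmQ
    have e : p₀ ^ t = m * d + 1 := by omega
    rw [e, pow_succ, pow_mul, hz1, one_pow, one_mul]
  have hznf : ∀ n : ℕ, (z ^ n) ^ (p₀ ^ t) = z ^ n := by
    intro n; rw [← pow_mul, mul_comm, pow_mul, hzf]
  have hzR : ∀ n : ℕ, R ℓ (z ^ n) 1 := fun n => P1 _ (pow_ne_zero _ hz0) (hznf n)
  have hneg : R ℓ (-1 : k) 1 := by
    refine P1 _ (neg_ne_zero.2 one_ne_zero) ?_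
    have := frob 0 1
    rwa [zero_sub, zero_pow hQpos.ne', one_pow, zero_sub] at this
  have hzsub : ∀ i j : ℕ, z ^ i ≠ z ^ j → R ℓ (z ^ i - z ^ j) 1 := by
    intro i j hij
    refine P1 _ (sub_ne_zero.2 hij) ?_
    rw [frob, hznf, hznf]
  have hinj : Function.Injective fun i : Fin m => z ^ (i : ℕ) := by
    intro i j hij
    exact Fin.ext (hz.pow_inj i.2 j.2 hij)
  -- the element `κ`
  obtain ⟨κ, hκ⟩ := hM k (hℓq.trans hqk) (by omega) (fun i => z ^ (i : ℕ))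
    (fun i => if (i : ℕ) = 0 then g else 1) hinj (by
      intro i; split_ifs
      · exact hg0
      · exact one_ne_zero)
  have hκi : ∀ i : ℕ, i < m → i ≠ 0 → R ℓ (κ - z ^ i) 1 := by
    intro i hi hi0
    obtain ⟨y, hy, hy'⟩ := hκ ⟨i, hi⟩
    dsimp only at hy'
    rw [if_neg hi0] at hy'
    exact ⟨y, hy, hy'⟩
  have hκg : R ℓ (κ - 1) g := by
    obtain ⟨y, hy, hy'⟩ := hκ ⟨0, hm⟩
    dsimp only at hy'
    rw [if_pos rfl, pow_zero] at hy'
    exact ⟨y, hy, hy'⟩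
  have hκ1 : ¬ R ℓ (κ - 1) 1 := fun h' => hg (R_trans (R_symm hκg) h')
  have hκ10 : κ - 1 ≠ 0 := by
    obtain ⟨y, hy, hy'⟩ := hκg
    rw [hy']; exact mul_ne_zero hg0 (pow_ne_zero _ hy)
  have hκ0 : κ ≠ 0 := by
    rintro rfl
    rw [zero_sub] at hκ1
    exact hκ1 hneg
  -- `1 - κ ^ m`
  have hw : R ℓ (1 - κ ^ m) (κ - 1) := by
    have e1 := X_pow_sub_C_eq_prod hz (α := (1 : k)) (a := 1) hm (one_pow m)
    have e2 : κ ^ m - 1 = ∏ i ∈ Finset.range m, (κ - z ^ i) := by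
      have := congrArg (Polynomial.eval κ) e1
      rw [eval_sub, eval_pow, eval_X, eval_C, eval_prod] at this
      rw [this]
      refine Finset.prod_congr rfl fun i _ => ?_
      rw [eval_sub, eval_X, eval_C, mul_one]
    have e3 : 1 - κ ^ m = -1 * ∏ i ∈ Finset.range m, (κ - z ^ i) := by rw [← e2]; ring
    rw [e3]
    obtain ⟨m', rfl⟩ : ∃ m', m = m' + 1 := ⟨m - 1, by omega⟩
    rw [Finset.prod_range_succ']
    have e4 : R ℓ (∏ i ∈ Finset.range m', (κ - z ^ (i + 1))) (∏ i ∈ Finset.range m', (1 : k)) :=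
      R_prod _ _ _ fun i hi => hκi (i + 1) (by have := Finset.mem_range.1 hi; omega)
        (Nat.succ_ne_zero _)
    rw [Finset.prod_const_one] at e4
    have e5 := R_mul hneg (R_mul e4 (R_refl (κ - z ^ 0)))
    rw [one_mul, one_mul, pow_zero] at e5
    rwa [pow_zero]
  have hw0 : (1 - κ ^ m) ≠ 0 := by
    obtain ⟨y, hy, hy'⟩ := hw
    rw [hy']; exact mul_ne_zero hκ10 (pow_ne_zero _ hy)
  -- the exponents
  have hqm : q.Coprime m := by rw [hq]; exact Nat.Coprime.pow_left _ hℓm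
  obtain ⟨e', he'⟩ : ∃ e' : ℕ, q ∣ e' * m + 1 := by
    obtain ⟨x, -, hx⟩ := Nat.exists_mul_mod_eq_of_coprime (k := q) (n := m) (q - 1) hqm.symm
      hq0.ne'
    refine ⟨x, ?_⟩
    have h1 : x * m ≡ q - 1 [MOD q] := by rw [mul_comm]; exact hx
    have h2 : x * m + 1 ≡ q - 1 + 1 [MOD q] := h1.add_right 1
    rw [Nat.sub_add_cancel hq0] at h2
    exact (Nat.modEq_zero_iff_dvd.1 (h2.trans (by rw [Nat.modEq_zero_iff_dvd])))
  obtain ⟨j, hj⟩ := he'
  have hℓe' : ¬ ℓ ∣ e' := by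
    intro hd
    have h1 : ℓ ∣ e' * m + 1 := hℓq.trans (by rw [hj]; exact Dvd.intro _ rfl)
    have h2 : ℓ ∣ e' * m := hd.mul_right m
    exact hℓ.one_lt.ne' (Nat.dvd_one.1 ((Nat.dvd_add_right h2).1 h1))
  set ρ0 : k := (1 - κ ^ m) ^ e' with hρ0
  set β : k := (1 - κ ^ m) ^ j with hβ
  have hρ00 : ρ0 ≠ 0 := pow_ne_zero _ hw0
  have hβ0 : β ≠ 0 := pow_ne_zero _ hw0
  have hβq : β ^ q = ρ0 ^ m * (1 - κ ^ m) := by
    rw [hβ, hρ0, ← pow_mul, mul_comm j, ← hj, pow_succ, pow_mul]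
  have hρ1 : ¬ R ℓ ρ0 1 := by
    intro h'
    have h2 := R_trans (R_symm (R_pow hw e')) h'
    exact hℓe' (R_pow_one hℓ hκ10 hκ1 h2)
  obtain ⟨τ, hτ1, hτ2⟩ := tau_ex (k := k) (N := N) (m := m) hNk (by
    set u := (Nat.card k - 1) / N with hu
    have h1 : N * u ≤ Nat.card k - 1 := Nat.mul_div_le _ _
    have h2 : (4 * m) * u ≤ N * u := Nat.mul_le_mul (by omega) le_rfl
    have h3 : (4 * m) * u = 4 * (m * u) := by ring
    have h4 : 2 * m * (u + 1) = 2 * (m * u) + 2 * m := by ring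
    omega) (fun i => ρ0 * z ^ (i : ℕ)) (fun i => κ * ρ0 * z ^ (i : ℕ))
  refine ⟨k, hk, ζ, fun i => ρ0 * z ^ (i : ℕ), fun i => κ * ρ0 * z ^ (i : ℕ), β, τ, N, hfin, hchar,
    hζ, hN.one_lt, hℓN, hpN, hβ0, ?_, ?_, ?_, ?_, ?_, ?_, ?_, ?_⟩
  · have key : ∀ α : k, ∏ i : Fin m, (X - C (α * z ^ (i : ℕ))) = X ^ m - C (α ^ m) := by
      intro α
      rw [X_pow_sub_C_eq_prod hz (α := α) (a := α ^ m) hm rfl, ← Fin.prod_univ_eq_prod_range
        (fun i => X - C (z ^ i * α)) m]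
      refine Finset.prod_congr rfl fun i _ => ?_
      rw [mul_comm]
    rw [key, key, hβq, sub_add, ← C_sub]
    congr 2
    ring
  · intro i j hij
    exact hinj (mul_left_cancel₀ hρ00 hij)
  · intro i j hij
    exact hinj (mul_left_cancel₀ (mul_ne_zero hκ0 hρ00) hij)
  · intro e i
    have h1 : (X ^ (N ^ e) + C (τ - ρ0 * z ^ (i : ℕ)) : k[X]) =
        X ^ (N ^ e) - C (ρ0 * z ^ (i : ℕ) - τ) := by
      rw [show τ - ρ0 * z ^ (i : ℕ) = -(ρ0 * z ^ (i : ℕ) - τ) by ring, C_neg, ← sub_eq_add_neg]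
    dsimp only
    rw [h1]
    exact X_pow_sub_C_irreducible_of_prime_pow hN (by omega) e fun b => hτ1 i b
  · intro e i
    have h1 : (X ^ (N ^ e) + C (τ - κ * ρ0 * z ^ (i : ℕ)) : k[X]) =
        X ^ (N ^ e) - C (κ * ρ0 * z ^ (i : ℕ) - τ) := by
      rw [show τ - κ * ρ0 * z ^ (i : ℕ) = -(κ * ρ0 * z ^ (i : ℕ) - τ) by ring, C_neg,
        ← sub_eq_add_neg]
    dsimp only
    rw [h1]
    exact X_pow_sub_C_irreducible_of_prime_pow hN (by omega) e fun b => hτ2 i b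
  · intro c e _ H i j
    refine cond_redei hℓ hℓm hρ00 hρ1 (fun i => ρ0 * z ^ (i : ℕ)) ?_ c e H i j
    intro i j hij
    rw [← mul_sub]
    have h1 := R_mul (R_refl (ℓ := ℓ) ρ0) (hzsub i j fun h' => hij (hinj h'))
    rwa [mul_one] at h1
  · intro c e hc H i j
    refine cond_mat hℓ hρ00 hκ10 hκ1 (fun j i => κ * ρ0 * z ^ (j : ℕ) - ρ0 * z ^ (i : ℕ)) ?_ c hc e
      H i j
    intro j i
    exact mat_rel ρ0 hz1 hzR hκi i j
  · intro c e hc H i j
    refine cond_mat hℓ hρ00 hκ10 hκ1 (fun i j => ρ0 * z ^ (i : ℕ) - κ * ρ0 * z ^ (j : ℕ)) ?_ c hc e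
      H i j
    intro i j
    have h1 := R_mul hneg (mat_rel ρ0 hz1 hzR hκi i j)
    have h2 : -1 * (κ * ρ0 * z ^ (j : ℕ) - ρ0 * z ^ (i : ℕ)) =
      ρ0 * z ^ (i : ℕ) - κ * ρ0 * z ^ (j : ℕ) := by ring
    rw [h2, one_mul] at h1
    have h3 : (if j = i then κ - 1 else 1) = (if i = j then κ - 1 else 1) := by
      simp only [eq_comm]
    rw [h3]
    exact h1

end Pool.Agent.Y232.FT2
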